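import Mathlib

/-!
# Chromatic number of the union of two critical graphs

Graphs are subgraphs of the complete graph on an ambient vertex type `V`, so that each has its own
vertex set and two of them may overlap arbitrarily; the union of two graphs is the join `⊔` of the
lattice of subgraphs (union of the vertex sets and of the edge sets).
-/

namespace Pool.Agent.Results.MP_b82347_co.UnionCritical

open SimpleGraph

/-- `G`, a graph whose vertices lie in `V`, is `k`-critical: it is finite, its chromatic number
is `k`, and every proper subgraph of it has chromatic number less than `k`. -/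
def IsCritical {V : Type} (k : ℕ) (G : (⊤ : SimpleGraph V).Subgraph) : Prop :=
  G.verts.Finite ∧ G.coe.chromaticNumber = k ∧
    ∀ H : (⊤ : SimpleGraph V).Subgraph, H < G → H.coe.chromaticNumber < k

/-- `f k l` is the largest chromatic number of a union of a `k`-critical graph and an
`l`-critical graph (a supremum in `ℕ∞`). -/
noncomputable def f (k l : ℕ) : ℕ∞ :=
  sSup {n : ℕ∞ | ∃ (V : Type) (G₁ G₂ : (⊤ : SimpleGraph V).Subgraph),
    IsCritical k G₁ ∧ IsCritical l G₂ ∧ n = (G₁ ⊔ G₂).coe.chromaticNumber}

section aux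

variable {V : Type}

/-- `G` has a proper colouring with `n` colours, given by a function on the ambient type. -/
def Col (n : ℕ) (G : (⊤ : SimpleGraph V).Subgraph) : Prop :=
  ∃ c : V → Fin n, ∀ u v, G.Adj u v → c u ≠ c v

theorem Col.colorable {n : ℕ} {G : (⊤ : SimpleGraph V).Subgraph} (h : Col n G) :
    G.coe.Colorable n := by
  obtain ⟨c, hc⟩ := h
  exact ⟨SimpleGraph.Coloring.mk (fun v => c v) (fun {u v} huv => hc u v huv)⟩

theorem col_of_colorable {n : ℕ} {G : (⊤ : SimpleGraph V).Subgraph} (hn : 0 < n)
    (h : G.coe.Colorable n) : Col n G := by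
  classical
  obtain ⟨c⟩ := h
  refine ⟨fun v => if hv : v ∈ G.verts then c ⟨v, hv⟩ else ⟨0, hn⟩, fun u v huv => ?_⟩
  have hu : u ∈ G.verts := G.edge_vert huv
  have hv : v ∈ G.verts := G.edge_vert huv.symm
  simp only [hu, hv, dif_pos]
  exact c.valid huv

theorem col_of_fintype {n : ℕ} {α : Type*} [Fintype α] {G : (⊤ : SimpleGraph V).Subgraph}
    (hα : Fintype.card α ≤ n) (c : V → α) (hc : ∀ u v, G.Adj u v → c u ≠ c v) : Col n G := by
  obtain ⟨e⟩ : Nonempty (α ↪ Fin n) := by
    apply Function.Embedding.nonempty_of_card_le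
    simpa using hα
  exact ⟨fun v => e (c v), fun u v huv h => hc u v huv (e.injective h)⟩

theorem IsCritical.not_col {k : ℕ} {G : (⊤ : SimpleGraph V).Subgraph} (h : IsCritical k G)
    {n : ℕ} (hn : n < k) : ¬ Col n G := by
  intro hc
  have h1 := hc.colorable.chromaticNumber_le
  rw [h.2.1] at h1
  have : k ≤ n := by exact_mod_cast h1
  omega

theorem IsCritical.col {k : ℕ} {G : (⊤ : SimpleGraph V).Subgraph} (h : IsCritical k G)
    (hk : 0 < k) : Col k G := by
  apply col_of_colorable hk
  rw [← chromaticNumber_le_iff_colorable, h.2.1]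

theorem IsCritical.col_of_lt {k : ℕ} {G H : (⊤ : SimpleGraph V).Subgraph} (h : IsCritical k G)
    (hk : 2 ≤ k) (hlt : H < G) : Col (k - 1) H := by
  apply col_of_colorable (by omega)
  rw [← chromaticNumber_le_iff_colorable]
  have h1 := h.2.2 H hlt
  have h2 : ((k : ℕ) : ℕ∞) = ((k - 1 : ℕ) : ℕ∞) + 1 := by
    have : k = (k - 1) + 1 := by omega
    exact_mod_cast this
  rw [h2] at h1
  exact Order.le_of_lt_add_one h1

/-- Deleting a vertex of a `k`-critical graph leaves a `(k-1)`-colourable graph. -/
theorem IsCritical.exists_vertex {k : ℕ} {G : (⊤ : SimpleGraph V).Subgraph}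
    (h : IsCritical k G) (hk : 2 ≤ k) {w : V} (hw : w ∈ G.verts) :
    ∃ c : V → Fin (k - 1), ∀ u v, G.Adj u v → u ≠ w → v ≠ w → c u ≠ c v := by
  have hlt : G.deleteVerts {w} < G := by
    refine lt_of_le_of_ne Subgraph.deleteVerts_le ?_
    intro heq
    have : w ∈ (G.deleteVerts {w}).verts := by rw [heq]; exact hw
    simp at this
  obtain ⟨c, hc⟩ := h.col_of_lt hk hlt
  refine ⟨c, fun u v huv hu hv => hc u v ?_⟩
  rw [Subgraph.deleteVerts_adj]
  exact ⟨G.edge_vert huv, by simpa using hu, G.edge_vert huv.symm, by simpa using hv, huv⟩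

/-- Deleting an edge of a `k`-critical graph leaves a `(k-1)`-colourable graph; in the colouring
the two ends of the edge have the same colour. -/
theorem IsCritical.exists_edge {k : ℕ} {G : (⊤ : SimpleGraph V).Subgraph}
    (h : IsCritical k G) (hk : 2 ≤ k) {x y : V} (hxy : G.Adj x y) :
    ∃ c : V → Fin (k - 1), c x = c y ∧
      ∀ u v, G.Adj u v → s(u, v) ≠ s(x, y) → c u ≠ c v := by
  have hlt : G.deleteEdges {s(x, y)} < G := by
    refine lt_of_le_of_ne (Subgraph.deleteEdges_le _) ?_
    intro heq
    have : (G.deleteEdges {s(x, y)}).Adj x y := by rw [heq]; exact hxy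
    rw [Subgraph.deleteEdges_adj] at this
    exact this.2 rfl
  obtain ⟨c, hc⟩ := h.col_of_lt hk hlt
  have hc' : ∀ u v, G.Adj u v → s(u, v) ≠ s(x, y) → c u ≠ c v := by
    intro u v huv hne
    apply hc u v
    rw [Subgraph.deleteEdges_adj]
    exact ⟨huv, by simpa using hne⟩
  refine ⟨c, ?_, hc'⟩
  by_contra hne
  apply h.not_col (n := k - 1) (by omega)
  refine ⟨c, fun u v huv => ?_⟩
  by_cases hs : s(u, v) = s(x, y)
  · rcases Sym2.eq_iff.mp hs with ⟨rfl, rfl⟩ | ⟨rfl, rfl⟩
    · exact hne
    · exact fun h' => hne h'.symm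
  · exact hc' u v huv hs

/-- A vertex of an `l`-critical graph, `l ≥ 4`, has three different neighbours. -/
theorem IsCritical.exists_three {l : ℕ} {G : (⊤ : SimpleGraph V).Subgraph}
    (h : IsCritical l G) (hl : 4 ≤ l) :
    ∃ (x : V) (y : Fin 3 → V), Function.Injective y ∧ ∀ i, G.Adj x (y i) := by
  classical
  obtain ⟨x, hx⟩ : G.verts.Nonempty := by
    by_contra hemp
    rw [Set.not_nonempty_iff_eq_empty] at hemp
    apply h.not_col (n := 1) (by omega)
    refine ⟨fun _ => 0, fun u v huv => ?_⟩
    have : u ∈ G.verts := G.edge_vert huv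
    rw [hemp] at this
    exact absurd this (Set.notMem_empty u)
  obtain ⟨c, hc⟩ := h.exists_vertex (by omega) hx
  have key : ∀ j : Fin (l - 1), ∃ y, G.Adj x y ∧ c y = j := by
    intro j
    by_contra hcon
    push Not at hcon
    apply h.not_col (n := l - 1) (by omega)
    refine ⟨fun v => if v = x then j else c v, fun u v huv => ?_⟩
    have huv' : u ≠ v := huv.ne
    beta_reduce
    by_cases hu : u = x
    · subst hu
      rw [if_pos rfl, if_neg (Ne.symm huv')]
      exact fun h' => hcon v huv h'.symm
    · by_cases hv : v = x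
      · subst hv
        rw [if_neg hu, if_pos rfl]
        exact hcon u huv.symm
      · rw [if_neg hu, if_neg hv]
        exact hc u v huv hu hv
  choose g hg1 hg2 using key
  refine ⟨x, fun i => g (Fin.castLE (by omega) i), ?_, fun i => hg1 _⟩
  intro i j hij
  have h1 := hg2 (Fin.castLE (by omega) i)
  have h2 := hg2 (Fin.castLE (by omega) j)
  simp only at hij
  rw [hij, h2] at h1
  exact (Fin.castLE_injective _ h1).symm

/-- Majority of three Booleans. -/
def maj (a b c : Bool) : Bool := (a && b) || (a && c) || (b && c)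

/-- If `G - y i` has a proper 2-colouring `φ i` for `i = 0, 1, 2`, and `φ i (y j) = φ i x` for all
`i ≠ j`, then the majority of the three colourings is a proper 2-colouring of `G`. -/
theorem majority_coloring (G : (⊤ : SimpleGraph V).Subgraph) (x : V) (y : Fin 3 → V)
    (φ : Fin 3 → V → Fin 2)
    (hφ : ∀ i u v, G.Adj u v → u ≠ y i → v ≠ y i → φ i u ≠ φ i v)
    (hy : ∀ i j, i ≠ j → φ i x = φ i (y j)) (hinj : Function.Injective y) : Col 2 G := by
  classical
  let ψ : Fin 3 → V → Bool := fun i v => decide (φ i v = φ i x)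
  have hψ : ∀ i u v, G.Adj u v → u ≠ y i → v ≠ y i → ψ i u = !(ψ i v) := by
    intro i u v huv hu hv
    have h1 := hφ i u v huv hu hv
    simp only [ψ]
    generalize φ i u = a at *
    generalize φ i v = b at *
    generalize φ i x = c at *
    revert a b c
    decide
  have hψy : ∀ i j, i ≠ j → ψ i (y j) = true := by
    intro i j hij
    simp only [ψ, hy i j hij, decide_true]
  have hm : ∀ u v, G.Adj u v →
      maj (ψ 0 u) (ψ 1 u) (ψ 2 u) = !(maj (ψ 0 v) (ψ 1 v) (ψ 2 v)) := by
    -- it is enough to treat the case where `u` may be one of the `y i` and `v` is none of them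
    have hnoadj : ∀ i j, i ≠ j → ¬ G.Adj (y i) (y j) := by
      intro i j hij hadj
      obtain ⟨k, hki, hkj⟩ : ∃ k : Fin 3, k ≠ i ∧ k ≠ j := by
        clear hadj hij
        revert i j
        decide
      have h1 := hψ k (y i) (y j) hadj (fun h => hki (hinj h).symm) (fun h => hkj (hinj h).symm)
      rw [hψy k i hki, hψy k j hkj] at h1
      simp at h1
    have hcase : ∀ i v, G.Adj (y i) v →
        maj (ψ 0 (y i)) (ψ 1 (y i)) (ψ 2 (y i)) = !(maj (ψ 0 v) (ψ 1 v) (ψ 2 v)) := by
      intro i v hadj
      have hv : ∀ j, v ≠ y j := by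
        intro j hj
        subst hj
        by_cases hij : i = j
        · subst hij
          exact hadj.ne rfl
        · exact hnoadj i j hij hadj
      have h2 : ∀ j, j ≠ i → ψ j v = false := by
        intro j hji
        have h1 := hψ j (y i) v hadj (fun h => hji (hinj h).symm) (hv j)
        rw [hψy j i hji] at h1
        simpa using h1.symm
      have h3 : ∀ j, j ≠ i → ψ j (y i) = true := fun j hji => hψy j i hji
      fin_cases i
      · rw [h3 1 (by decide), h3 2 (by decide), h2 1 (by decide), h2 2 (by decide)]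
        simp [maj]
      · rw [h3 0 (by decide), h3 2 (by decide), h2 0 (by decide), h2 2 (by decide)]
        simp [maj]
      · rw [h3 0 (by decide), h3 1 (by decide), h2 0 (by decide), h2 1 (by decide)]
        simp [maj]
    intro u v huv
    by_cases hu : ∃ i, u = y i
    · obtain ⟨i, rfl⟩ := hu
      exact hcase i v huv
    · by_cases hv : ∃ i, v = y i
      · obtain ⟨i, rfl⟩ := hv
        have := hcase i u huv.symm
        rw [this, Bool.not_not]
      · push Not at hu hv
        rw [hψ 0 u v huv (hu 0) (hv 0), hψ 1 u v huv (hu 1) (hv 1), hψ 2 u v huv (hu 2) (hv 2)]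
        generalize ψ 0 v = a
        generalize ψ 1 v = b
        generalize ψ 2 v = c
        revert a b c
        decide
  refine col_of_fintype (α := Bool) (by simp) (fun v => maj (ψ 0 v) (ψ 1 v) (ψ 2 v)) ?_
  intro u v huv h
  have := hm u v huv
  rw [h] at this
  simp at this

/-- The key step: the union of a 3-critical graph and an `l`-critical graph, `l ≥ 4`, is
`2(l-1)`-colourable. -/
theorem col_union {l : ℕ} (hl : 4 ≤ l) {G₁ G₂ : (⊤ : SimpleGraph V).Subgraph}
    (h₁ : IsCritical 3 G₁) (h₂ : IsCritical l G₂) : Col (2 * (l - 1)) (G₁ ⊔ G₂) := by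
  classical
  by_contra hnot
  obtain ⟨x, y, hinj, hadj⟩ := h₂.exists_three hl
  have hcol := fun i => h₂.exists_edge (by omega) (hadj i)
  choose c hcx hc using hcol
  have hxy : ∀ i, x ≠ y i := fun i => (hadj i).ne
  have hcne : ∀ i j, i ≠ j → c i (y j) ≠ c i x := by
    intro i j hij
    have := hc i x (y j) (hadj j) (by
      intro h
      rcases Sym2.eq_iff.mp h with ⟨-, h⟩ | ⟨h, -⟩
      · exact hij (hinj h).symm
      · exact hxy i h)
    exact this.symm
  -- no class of `c i` contains all the vertices of `G₁`
  have hA : ∀ i a, ∃ v ∈ G₁.verts, c i v ≠ a := by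
    intro i a
    by_contra hcon
    push Not at hcon
    obtain ⟨φ, hφ⟩ := h₁.col (by norm_num)
    apply hnot
    refine col_of_fintype (α := Option (Fin 3 ⊕ {b : Fin (l - 1) // b ≠ a})) ?_
      (fun v => if v = x then none else
        if hv : c i v = a then some (Sum.inl (φ v)) else some (Sum.inr ⟨c i v, hv⟩)) ?_
    · rw [Fintype.card_option, Fintype.card_sum, Fintype.card_fin]
      have : Fintype.card {b : Fin (l - 1) // b ≠ a} = l - 1 - 1 := by
        rw [Fintype.card_subtype_compl]
        simp
      rw [this]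
      omega
    · intro u v huv
      have huvne : u ≠ v := huv.ne
      by_cases hu : u = x
      · rw [if_pos hu, if_neg (fun h => huvne (hu.trans h.symm))]
        split_ifs <;> simp
      · by_cases hv : v = x
        · rw [if_neg hu, if_pos hv]
          split_ifs <;> simp
        · rw [if_neg hu, if_neg hv]
          rw [Subgraph.sup_adj] at huv
          rcases huv with huv | huv
          · have h1 := hcon u (G₁.edge_vert huv)
            have h2 := hcon v (G₁.edge_vert huv.symm)
            rw [dif_pos h1, dif_pos h2]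
            simpa using hφ u v huv
          · have h1 := hc i u v huv (by
              intro h
              rcases Sym2.eq_iff.mp h with ⟨h, -⟩ | ⟨-, h⟩
              · exact hu h
              · exact hv h)
            by_cases hua : c i u = a
            · rw [dif_pos hua, dif_neg (fun h => h1 (hua.trans h.symm))]
              simp
            · by_cases hva : c i v = a
              · rw [dif_neg hua, dif_pos hva]
                simp
              · rw [dif_neg hua, dif_neg hva]
                simpa using h1
  -- each class of `c i` spans a 2-colourable subgraph of `G₁`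
  have hB : ∀ i a, ∃ ψ : V → Fin 2, ∀ u v, G₁.Adj u v → c i u = a → c i v = a → ψ u ≠ ψ v := by
    intro i a
    obtain ⟨w, hw, hwa⟩ := hA i a
    obtain ⟨ψ, hψ⟩ := h₁.exists_vertex (by norm_num) hw
    refine ⟨ψ, fun u v huv hu hv => hψ u v huv ?_ ?_⟩
    · rintro rfl; exact hwa hu
    · rintro rfl; exact hwa hv
  -- the class of `x` in `c i` forces `x` and `y i` to have the same colour
  have hC : ∀ i (ψ : V → Fin 2),
      (∀ u v, G₁.Adj u v → c i u = c i x → c i v = c i x → ψ u ≠ ψ v) → ψ x = ψ (y i) := by
    intro i ψ hψ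
    by_contra hne
    apply hnot
    choose χ hχ using hB i
    refine col_of_fintype (α := Fin (l - 1) × Fin 2) ?_
      (fun v => (c i v, if c i v = c i x then ψ v else χ (c i v) v)) ?_
    · rw [Fintype.card_prod, Fintype.card_fin, Fintype.card_fin]
      omega
    · intro u v huv heq
      rw [Prod.mk.injEq] at heq
      obtain ⟨h1, h2⟩ := heq
      rw [Subgraph.sup_adj] at huv
      rcases huv with huv | huv
      · by_cases hu : c i u = c i x
        · rw [if_pos hu, if_pos (h1 ▸ hu)] at h2
          exact hψ u v huv hu (h1 ▸ hu) h2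
        · rw [if_neg hu, if_neg (h1 ▸ hu), ← h1] at h2
          exact hχ (c i u) u v huv rfl h1.symm h2
      · by_cases hs : s(u, v) = s(x, y i)
        · rcases Sym2.eq_iff.mp hs with ⟨rfl, rfl⟩ | ⟨rfl, rfl⟩
          · rw [if_pos rfl, if_pos (hcx i).symm] at h2
            exact hne h2
          · rw [if_pos rfl, if_pos (hcx i).symm] at h2
            exact hne h2.symm
        · exact hc i u v huv hs h1
  -- `y i` is a vertex of `G₁`
  have hD : ∀ i, y i ∈ G₁.verts := by
    intro i
    by_contra hy
    obtain ⟨ψ, hψ⟩ := hB i (c i x)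
    have := hC i (fun v => if v = y i then ψ x + 1 else ψ v) (by
      intro u v huv hu hv
      have hu' : u ≠ y i := by rintro rfl; exact hy (G₁.edge_vert huv)
      have hv' : v ≠ y i := by rintro rfl; exact hy (G₁.edge_vert huv.symm)
      simp only [if_neg hu', if_neg hv']
      exact hψ u v huv hu hv)
    simp only [if_neg (hxy i), if_true] at this
    revert this
    generalize ψ x = a
    revert a
    decide
  have hE := fun i => h₁.exists_vertex (by norm_num) (hD i)
  choose φ hφ using hE
  apply h₁.not_col (n := 2) (by norm_num)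
  refine majority_coloring G₁ x y φ hφ ?_ hinj
  intro i j hij
  refine hC j (φ i) (fun u v huv hu hv => hφ i u v huv ?_ ?_)
  · rintro rfl
    exact hcne j i (Ne.symm hij) hu
  · rintro rfl
    exact hcne j i (Ne.symm hij) hv

end aux

/-- For every `l ≥ 4` the union of a 3-critical graph and an `l`-critical graph has chromatic
number at most `2(l-1) = (3-1)(l-1)`; hence the equality `f(k,l) = (k-1)(l-1)+1` does not hold for
all `k, l ≥ 2`. -/
theorem result :
    (∀ l : ℕ, 4 ≤ l → f 3 l ≤ ((3 - 1) * (l - 1) : ℕ)) ∧
    ¬ (∀ k l : ℕ, 2 ≤ k → 2 ≤ l → f k l = ((k - 1) * (l - 1) + 1 : ℕ)) := by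
  have h1 : ∀ l : ℕ, 4 ≤ l → f 3 l ≤ ((3 - 1) * (l - 1) : ℕ) := by
    intro l hl
    apply sSup_le
    rintro n ⟨V, G₁, G₂, hG₁, hG₂, rfl⟩
    exact (col_union hl hG₁ hG₂).colorable.chromaticNumber_le
  refine ⟨h1, fun h => ?_⟩
  have h2 := h1 4 le_rfl
  rw [h 3 4 (by norm_num) (by norm_num)] at h2
  norm_num at h2

end Pool.Agent.Results.MP_b82347_co.UnionCritical
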